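import Pool.Agent.Lib.MP_38dfb6_an.NB.Spec
import Pool.Agent.Lib.MP_38dfb6_an.NB.LAM
import Pool.Agent.Lib.MP_38dfb6_an.NB.UNQ
import Pool.Agent.Lib.MP_38dfb6_an.NB.CHN
import Pool.Agent.Lib.MP_38dfb6_an.NB.PRD
import Pool.Agent.Lib.MP_38dfb6_an.NB.CLS
import Pool.Agent.Lib.MP_38dfb6_an.NB.CNT
import Pool.Agent.Lib.MP_38dfb6_an.NB.GEN
import Pool.Agent.Lib.MP_38dfb6_an.NB.WCG
import Pool.Agent.Lib.MP_38dfb6_an.NB.HIL
import Pool.Agent.Lib.MP_38dfb6_an.NB.LIM
import Pool.Agent.Lib.MP_38dfb6_an.NB.BAS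
import Pool.Agent.Lib.MP_38dfb6_an.NB.LOW
import Pool.Agent.Lib.MP_38dfb6_an.NB.CLO
import Pool.Agent.Lib.MP_38dfb6_an.NB.KIL
import Pool.Agent.Lib.MP_38dfb6_an.NB.TST
import Pool.Agent.Lib.MP_38dfb6_an.NB.UPP
import Pool.Agent.Lib.MP_38dfb6_an.NB.CRD
import Pool.Agent.Lib.MP_38dfb6_an.NB.NNG
import Pool.Agent.Lib.MP_38dfb6_an.NB.FIN

/-!
# M-bases of weakly compactly generated spaces and of their superspaces: the best characteristic

Let `Λ` be a well-order of type `ω₁`, and for every `δ` let `L δ : ℕ → Λ` be an enumeration of the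
elements below `δ`.  A node is a pair `(D, a)` of finite sequences in `Λ`.  Let the path of `(D, a)`,
`D = (δ_1, ..., δ_m)`, consist of the nodes `((δ_1, ..., δ_j), initial parts of L δ_(j+1))`, `j < m`, and of the
nodes `(D, initial parts of a)`.  This is a tree of height `ω²`, the union of countably many antichains.
`E` is the closed linear span of the indicators `χ_s` of the sets of the paths through the node `s` in the
space of all bounded functions on the set of paths, `E_n` is the same for the nodes with `m ≤ n`.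

*Upper bound.*  Let `(x_i, f_i)` be an M-basis of a space `X` which contains `E`.  A closing-off argument
gives `δ_1 < ... < δ_n` such that for every `φ` in the span of the `f_i` and every `k < n` there is a node
`s_k = ((δ_1, ..., δ_k), initial part of L δ_(k+1))` with `φ (χ_(s_k)) = 0`.  With `c_k = ((δ_1, ..., δ_k), ())` the path order is
`c_0 ≤ s_0 < c_1 ≤ s_1 < ... < c_n`.  So `g = χ_(c_0) + 2 ∑ χ_(c_k)` has norm `2 n + 1`, and `g - 2 ∑ χ_(s_k)` has the values `1`
and `-1` only, so `|φ g| ≤ ‖φ‖`.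

*Lower bound.*  The `χ_s` form an M-basis of `E_n`, and its characteristic is `1 / (2 n + 1)`.
-/

set_option autoImplicit false

namespace Pool.Agent.Results.MP_38dfb6_an.BestCharacteristic

open Pool.Agent.Lib.MP38dfb6

universe u v

/-- Let `𝕜` be `ℝ` or `ℂ`.
(1) There is a Hilbert generated (and weakly compactly generated) Banach space `E`, the closed linear
span of at most `ℵ₁` vectors, such that every M-basis of `E`, and every M-basis of every normed space `X` which
contains an isomorphic copy `J E` of `E`, has characteristic `0` (is not norming).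
(2) For every `n` there is a Hilbert generated (and weakly compactly generated) Banach space `E`, the closed
linear span of at most `ℵ₁` vectors, which has an M-basis of characteristic `1 / (2 n + 1)`, and no M-basis of `E` has
a bigger characteristic; every M-basis of every normed space `X` with a bounded linear map `J : E → X`,
`a ‖e‖ ≤ ‖J e‖`, has characteristic at most `‖J‖ / (a (2 n + 1))`. -/
theorem result (𝕜 : Type) [RCLike 𝕜] :
    (∃ (E : Type) (_ : NormedAddCommGroup E) (_ : NormedSpace 𝕜 E) (_ : CompleteSpace E),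
      WCG 𝕜 E ∧ HG 𝕜 E ∧
      (∃ G : Set E, Cardinal.mk G ≤ Cardinal.aleph 1 ∧ (Submodule.span 𝕜 G).topologicalClosure = ⊤) ∧
      (∀ (ι : Type v) (x : ι → E) (f : ι → (E →L[𝕜] 𝕜)), MBasis 𝕜 E x f →
        charac 𝕜 (cspan 𝕜 f) = 0) ∧
      ∀ (X : Type u) (_ : NormedAddCommGroup X) (_ : NormedSpace 𝕜 X) (J : E →L[𝕜] X) (a : ℝ),
        0 < a → (∀ e, a * ‖e‖ ≤ ‖J e‖) →
        ∀ (ι : Type v) (x : ι → X) (f : ι → (X →L[𝕜] 𝕜)), MBasis 𝕜 X x f →
          charac 𝕜 (cspan 𝕜 f) = 0) ∧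
    ∀ n : ℕ, ∃ (E : Type) (_ : NormedAddCommGroup E) (_ : NormedSpace 𝕜 E) (_ : CompleteSpace E),
      WCG 𝕜 E ∧ HG 𝕜 E ∧
      (∃ G : Set E, Cardinal.mk G ≤ Cardinal.aleph 1 ∧ (Submodule.span 𝕜 G).topologicalClosure = ⊤) ∧
      (∃ (ι : Type) (x : ι → E) (f : ι → (E →L[𝕜] 𝕜)), MBasis 𝕜 E x f ∧
        charac 𝕜 (cspan 𝕜 f) = 1 / (2 * n + 1)) ∧
      (∀ (ι : Type v) (x : ι → E) (f : ι → (E →L[𝕜] 𝕜)), MBasis 𝕜 E x f →
        charac 𝕜 (cspan 𝕜 f) ≤ 1 / (2 * n + 1)) ∧
      ∀ (X : Type u) (_ : NormedAddCommGroup X) (_ : NormedSpace 𝕜 X) (J : E →L[𝕜] X) (a : ℝ),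
        0 < a → (∀ e, a * ‖e‖ ≤ ‖J e‖) →
        ∀ (ι : Type v) (x : ι → X) (f : ι → (X →L[𝕜] 𝕜)), MBasis 𝕜 X x f →
          charac 𝕜 (cspan 𝕜 f) ≤ ‖J‖ / (a * (2 * n + 1)) :=
  specFIN specLAM (specWCG (specCNT (specCLS specUNQ)) specGEN) (specHIL specUNQ specGEN)
    (specBAS specPRD specGEN specLIM) (specLOW specLIM)
    (specUPP (specKIL (specCNT (specCLS specUNQ)) specCLO) (specTST specCHN))
    (specUPP (specKIL (specCNT (specCLS specUNQ)) specCLO) (specTST specCHN))
    (specUPP (specKIL (specCNT (specCLS specUNQ)) specCLO) (specTST specCHN))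
    (specCRD specGEN) specNNG specNNG 𝕜

end Pool.Agent.Results.MP_38dfb6_an.BestCharacteristic
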